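import Mathlib

open Filter Topology Finset

namespace Pool.Agent.Results.MP_51e3e3_an.FullPlane

/-- The terms `v_n = ((-1)^n / n, (-1)^n / √n)`. -/
noncomputable def v (n : ℕ) : ℝ × ℝ := ((-1) ^ n / n, (-1) ^ n / Real.sqrt n)

/-- The achievement set of a planar series `∑_{n ≥ 1} w n`: all sums of convergent subseries. -/
def achievementSet (w : ℕ → ℝ × ℝ) : Set (ℝ × ℝ) :=
  {p | ∃ ε : ℕ → ℝ, (∀ n, ε n = 0 ∨ ε n = 1) ∧
    Tendsto (fun m : ℕ => ∑ n ∈ Finset.Icc 1 m, ε n • w n) atTop (𝓝 p)}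

/-- the sign of a real number, with `sgn 0 = 1` -/
noncomputable def sgn (r : ℝ) : ℝ := if 0 ≤ r then 1 else -1

lemma sgn_cases (r : ℝ) : sgn r = 1 ∨ sgn r = -1 := by
  unfold sgn; split_ifs <;> simp

lemma abs_sub_sgn {e d c : ℝ} (hd : |d| ≤ c / 2) :
    |e + d - sgn e * c| ≤ max (|e| - c / 2) (3 / 2 * c) := by
  have h1 := abs_le.mp hd
  unfold sgn
  split_ifs with h
  · rw [abs_of_nonneg h, abs_le]
    constructor
    · have := le_max_right (e - c / 2) (3 / 2 * c)
      linarith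
    · have := le_max_left (e - c / 2) (3 / 2 * c)
      linarith
  · push Not at h
    rw [abs_of_neg h, abs_le]
    constructor
    · have := le_max_left (-e - c / 2) (3 / 2 * c)
      linarith
    · have := le_max_right (-e - c / 2) (3 / 2 * c)
      linarith

lemma tendsto_zero_of_descent (a : ℕ → ℝ) (ha : ∀ n, 0 ≤ a n) (c : ℕ → ℝ)
    (hdiv : Tendsto (fun n => ∑ k ∈ range n, c k) atTop atTop)
    (h : ∀ ε > 0, ∃ n0 : ℕ, ∃ δ > 0, ∀ n ≥ n0, (a n < ε → a (n + 1) < ε) ∧
      (ε ≤ a n → a (n + 1) < ε ∨ a (n + 1) ≤ a n - δ * c n)) :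
    Tendsto a atTop (𝓝 0) := by
  rw [Metric.tendsto_atTop]
  intro ε hε
  obtain ⟨n0, δ, hδ, H⟩ := h ε hε
  have key : ∃ n1 ≥ n0, a n1 < ε := by
    by_contra hcon
    push Not at hcon
    have hstep : ∀ n ≥ n0, a (n + 1) ≤ a n - δ * c n := by
      intro n hn
      rcases (H n hn).2 (hcon n hn) with h1 | h1
      · exact absurd h1 (not_lt.mpr (hcon (n + 1) (by omega)))
      · exact h1
    have hbd : ∀ n ≥ n0, a n ≤ a n0 - δ * (∑ k ∈ range n, c k - ∑ k ∈ range n0, c k) := by
      intro n hn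
      induction n, hn using Nat.le_induction with
      | base => simp
      | succ n hn ih =>
        have := hstep n hn
        rw [sum_range_succ]
        nlinarith
    obtain ⟨n, hn1, hn2⟩ := ((hdiv.eventually_gt_atTop
      (a n0 / δ + ∑ k ∈ range n0, c k)).and (eventually_ge_atTop n0)).exists
    have h1 := hbd n hn2
    have h2 := ha n
    have h3 : a n0 / δ < ∑ k ∈ range n, c k - ∑ k ∈ range n0, c k := by linarith
    rw [div_lt_iff₀ hδ] at h3
    nlinarith
  obtain ⟨n1, hn1, hlt⟩ := key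
  refine ⟨n1, fun n hn => ?_⟩
  rw [Real.dist_eq, sub_zero, abs_of_nonneg (ha n)]
  induction n, hn using Nat.le_induction with
  | base => exact hlt
  | succ n hn ih => exact (H n (by omega)).1 ih

lemma divergent (N : ℕ) :
    Tendsto (fun n => ∑ k ∈ range n, (1 / ((N : ℝ) + k + 1))) atTop atTop := by
  have h0 : Tendsto (fun n => ∑ i ∈ range n, (1 / ((i : ℝ) + 1))) atTop atTop :=
    Real.tendsto_sum_range_one_div_nat_succ_atTop
  have h1 : Tendsto (fun n => (1 / ((N : ℝ) + 1)) * ∑ i ∈ range n, (1 / ((i : ℝ) + 1)))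
      atTop atTop := h0.const_mul_atTop (by positivity)
  refine tendsto_atTop_mono (fun n => ?_) h1
  rw [mul_sum]
  refine sum_le_sum fun k _ => ?_
  have hN : (0 : ℝ) ≤ N := Nat.cast_nonneg N
  have hk : (0 : ℝ) ≤ k := Nat.cast_nonneg k
  rw [one_div_mul_one_div]
  apply one_div_le_one_div_of_le (by positivity)
  nlinarith [mul_nonneg hN hk]

/-- Phase 2: the state (remaining target) after `n` further steps. -/
noncomputable def st2 (N : ℕ) (x y : ℝ) : ℕ → ℝ × ℝ
  | 0 => (x, y)
  | n + 1 =>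
    let s := st2 N x y n
    let z := sgn (2 * Real.sqrt ((N : ℝ) + n) * s.1 - s.2)
    (s.1 - z / ((N : ℝ) + n + 1), s.2 - z / Real.sqrt ((N : ℝ) + n + 1))

lemma sqrt_inv (t : ℝ) (ht : 0 < t) : Real.sqrt t / t = 1 / Real.sqrt t := by
  rw [div_eq_div_iff ht.ne' (Real.sqrt_pos.mpr ht).ne', one_mul, Real.mul_self_sqrt ht.le]

/-- Phase 2: from a state with small normalised coordinates one can steer to the origin. -/
lemma phase2 (N : ℕ) (hN : 12 ≤ N) (x y : ℝ)
    (he : |2 * Real.sqrt N * x - y| ≤ Real.sqrt N / 8) (hu : |Real.sqrt N * x - y| ≤ Real.sqrt N / 8) :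
    Tendsto (fun n => (st2 N x y n).1) atTop (𝓝 0) ∧
    Tendsto (fun n => (st2 N x y n).2) atTop (𝓝 0) := by
  set X : ℕ → ℝ := fun n => (st2 N x y n).1 with hX
  set Y : ℕ → ℝ := fun n => (st2 N x y n).2 with hY
  set t : ℕ → ℝ := fun n => Real.sqrt ((N : ℝ) + n) with ht
  set e : ℕ → ℝ := fun n => 2 * t n * X n - Y n with hedef
  set U : ℕ → ℝ := fun n => t n * X n - Y n with hUdef
  have hNr : (12 : ℝ) ≤ N := by exact_mod_cast hN
  have hpos : ∀ n : ℕ, (0 : ℝ) < (N : ℝ) + n := by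
    intro n
    have : (0 : ℝ) ≤ n := Nat.cast_nonneg n
    linarith
  have htpos : ∀ n, 0 < t n := fun n => Real.sqrt_pos.mpr (hpos n)
  have htsq : ∀ n, t n * t n = (N : ℝ) + n := fun n => Real.mul_self_sqrt (hpos n).le
  have htmono : ∀ n, t n ≤ t (n + 1) := by
    intro n
    apply Real.sqrt_le_sqrt
    push_cast
    linarith
  have htmono0 : ∀ n, t 0 ≤ t n := fun n => monotone_nat_of_le_succ htmono (Nat.zero_le n)
  have ht0 : t 0 = Real.sqrt N := by simp [ht]
  have hc : ∀ n, (0 : ℝ) < 1 / t n := fun n => one_div_pos.mpr (htpos n)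
  have hXs : ∀ n, X (n + 1) = X n - sgn (e n) * (1 / (t (n + 1) * t (n + 1))) := by
    intro n
    rw [htsq]
    simp only [hX, hedef, hY, ht, st2]
    push_cast
    rw [← add_assoc]
    ring
  have hYs : ∀ n, Y (n + 1) = Y n - sgn (e n) * (1 / t (n + 1)) := by
    intro n
    simp only [hX, hedef, hY, ht, st2]
    push_cast
    rw [← add_assoc]
    ring
  have hes : ∀ n, e (n + 1) = e n + 2 * (t (n + 1) - t n) * X n - sgn (e n) * (1 / t (n + 1)) := by
    intro n
    have h1 := (htpos (n + 1)).ne'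
    show 2 * t (n + 1) * X (n + 1) - Y (n + 1) = _
    rw [hXs, hYs]
    have : t (n + 1) * (sgn (e n) * (1 / (t (n + 1) * t (n + 1)))) = sgn (e n) * (1 / t (n + 1)) := by
      field_simp
    have h2 : e n = 2 * t n * X n - Y n := rfl
    calc 2 * t (n + 1) * (X n - sgn (e n) * (1 / (t (n + 1) * t (n + 1)))) -
        (Y n - sgn (e n) * (1 / t (n + 1)))
        = 2 * t (n + 1) * X n - 2 * (t (n + 1) * (sgn (e n) * (1 / (t (n + 1) * t (n + 1))))) -
          (Y n - sgn (e n) * (1 / t (n + 1))) := by ring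
      _ = 2 * t (n + 1) * X n - Y n - sgn (e n) * (1 / t (n + 1)) := by rw [this]; ring
      _ = (2 * t n * X n - Y n) + 2 * (t (n + 1) - t n) * X n - sgn (e n) * (1 / t (n + 1)) := by
        ring
  have hUs : ∀ n, U (n + 1) = U n + (t (n + 1) - t n) * X n := by
    intro n
    have h1 := (htpos (n + 1)).ne'
    show t (n + 1) * X (n + 1) - Y (n + 1) = _
    rw [hXs, hYs]
    have : t (n + 1) * (sgn (e n) * (1 / (t (n + 1) * t (n + 1)))) = sgn (e n) * (1 / t (n + 1)) := by
      field_simp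
    calc t (n + 1) * (X n - sgn (e n) * (1 / (t (n + 1) * t (n + 1)))) -
        (Y n - sgn (e n) * (1 / t (n + 1)))
        = t (n + 1) * X n - (t (n + 1) * (sgn (e n) * (1 / (t (n + 1) * t (n + 1))))) -
          (Y n - sgn (e n) * (1 / t (n + 1))) := by ring
      _ = t (n + 1) * X n - Y n := by rw [this]; ring
      _ = (t n * X n - Y n) + (t (n + 1) - t n) * X n := by ring
  have hXe : ∀ n, X n = (e n - U n) / t n := by
    intro n
    have h1 := (htpos n).ne'
    show X n = ((2 * t n * X n - Y n) - (t n * X n - Y n)) / t n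
    field_simp
    ring
  have hdt : ∀ n, (t (n + 1) - t n) * (t (n + 1) + t n) = 1 := by
    intro n
    have h1 := htsq n
    have h2 := htsq (n + 1)
    push_cast at h2
    nlinarith
  have hUs' : ∀ n, U (n + 1) = U n + (t (n + 1) - t n) / t n * (e n - U n) := by
    intro n
    rw [hUs, hXe]
    ring
  -- the ratio `ρ`
  have hρ0 : ∀ n, 0 ≤ (t (n + 1) - t n) / t n := fun n =>
    div_nonneg (sub_nonneg.mpr (htmono n)) (htpos n).le
  have ht1 : ∀ n, 1 ≤ t n := by
    intro n
    rw [← Real.sqrt_one]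
    apply Real.sqrt_le_sqrt
    have : (0 : ℝ) ≤ n := Nat.cast_nonneg n
    linarith
  have hρ1 : ∀ n, (t (n + 1) - t n) / t n ≤ 1 := by
    intro n
    rw [div_le_one (htpos n)]
    have h1 := hdt n
    have h2 := ht1 n
    have h3 := ht1 (n + 1)
    nlinarith [sub_nonneg.mpr (htmono n)]
  have hB12 : 3 / 2 * (1 / t 0) ≤ t 0 / 8 := by
    rw [mul_one_div, div_le_div_iff₀ (htpos 0) (by norm_num)]
    have := htsq 0
    push_cast at this
    nlinarith
  have hdrift : ∀ n, |e n| ≤ t 0 / 8 → |U n| ≤ t 0 / 8 →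
      |2 * (t (n + 1) - t n) * X n| ≤ (1 / t (n + 1)) / 2 := by
    intro n h1 h2
    have hX4 : |X n| ≤ 1 / 4 := by
      rw [hXe, abs_div, abs_of_pos (htpos n), div_le_iff₀ (htpos n)]
      have := abs_sub (e n) (U n)
      have := htmono0 n
      linarith
    have hd0 : 0 ≤ t (n + 1) - t n := sub_nonneg.mpr (htmono n)
    have h3 : (t (n + 1) - t n) * t (n + 1) ≤ 1 := by
      nlinarith [hdt n, mul_nonneg hd0 (htpos n).le]
    have h4 : t (n + 1) - t n ≤ 1 / t (n + 1) := by
      rw [le_div_iff₀ (htpos (n + 1))]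
      exact h3
    rw [abs_mul, abs_of_nonneg (by positivity)]
    nlinarith [abs_nonneg (X n), mul_le_mul h4 hX4 (abs_nonneg _) (hc (n + 1)).le]
  have hestep : ∀ n, |e n| ≤ t 0 / 8 → |U n| ≤ t 0 / 8 →
      |e (n + 1)| ≤ max (|e n| - (1 / t (n + 1)) / 2) (3 / 2 * (1 / t (n + 1))) := by
    intro n h1 h2
    rw [hes]
    exact abs_sub_sgn (hdrift n h1 h2)
  have hUstep : ∀ n, |U (n + 1)| ≤ |U n| - (t (n + 1) - t n) / t n * (|U n| - |e n|) := by
    intro n
    rw [hUs']
    set ρ := (t (n + 1) - t n) / t n with hρ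
    have h0 : 0 ≤ ρ := hρ0 n
    have h1 : ρ ≤ 1 := hρ1 n
    have : U n + ρ * (e n - U n) = (1 - ρ) * U n + ρ * e n := by ring
    rw [this]
    calc |(1 - ρ) * U n + ρ * e n| ≤ |(1 - ρ) * U n| + |ρ * e n| := abs_add_le _ _
      _ = (1 - ρ) * |U n| + ρ * |e n| := by
        rw [abs_mul, abs_mul, abs_of_nonneg h0, abs_of_nonneg (by linarith : 0 ≤ 1 - ρ)]
      _ = _ := by ring
  have hct : ∀ n, 1 / t n ≤ 1 / t 0 := fun n =>
    one_div_le_one_div_of_le (htpos 0) (htmono0 n)
  -- invariant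
  have hinv : ∀ n, |e n| ≤ t 0 / 8 ∧ |U n| ≤ t 0 / 8 := by
    intro n
    induction n with
    | zero =>
      constructor
      · show |2 * t 0 * X 0 - Y 0| ≤ t 0 / 8
        rw [ht0]; exact he
      · show |t 0 * X 0 - Y 0| ≤ t 0 / 8
        rw [ht0]; exact hu
    | succ n ih =>
      obtain ⟨h1, h2⟩ := ih
      constructor
      · refine (hestep n h1 h2).trans (max_le ?_ ?_)
        · have := hc (n + 1)
          linarith
        · have := hct (n + 1)
          linarith
      · refine (hUstep n).trans ?_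
        have h0 := hρ0 n
        have h3 := hρ1 n
        nlinarith [mul_nonneg h0 (sub_nonneg.mpr h2), mul_nonneg h0 (sub_nonneg.mpr h1)]
  -- `1 / t n → 0`
  have httop : Tendsto t atTop atTop := by
    have : Tendsto (fun n : ℕ => (N : ℝ) + n) atTop atTop :=
      tendsto_atTop_add_const_left _ _ tendsto_natCast_atTop_atTop
    exact Real.tendsto_sqrt_atTop.comp this
  have hc0 : Tendsto (fun n => 1 / t n) atTop (𝓝 0) := by
    exact (tendsto_inv_atTop_zero.comp httop).congr (fun n => by simp [one_div])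
  have hc0' : Tendsto (fun n => 3 / 2 * (1 / t (n + 1))) atTop (𝓝 0) := by
    have := (hc0.comp (tendsto_add_atTop_nat 1)).const_mul (3 / 2)
    simpa using this
  -- `e → 0`
  have he0 : Tendsto (fun n => |e n|) atTop (𝓝 0) := by
    apply tendsto_zero_of_descent _ (fun n => abs_nonneg _) _ (divergent N)
    intro ε hε
    obtain ⟨n0, hn0⟩ := eventually_atTop.mp (hc0'.eventually_lt_const hε)
    refine ⟨n0, 1 / 2, by norm_num, fun n hn => ?_⟩
    have h1 := hestep n (hinv n).1 (hinv n).2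
    have h2 := hn0 n hn
    have h3 := hc (n + 1)
    have h4 : 1 / ((N : ℝ) + n + 1) ≤ 1 / t (n + 1) := by
      have h5 := htsq (n + 1)
      push_cast at h5
      rw [add_assoc, ← h5]
      apply one_div_le_one_div_of_le (htpos _)
      nlinarith [ht1 (n + 1)]
    constructor
    · intro h
      exact h1.trans_lt (max_lt (by linarith) h2)
    · intro h
      rcases le_max_iff.mp h1 with h5 | h5
      · right; linarith
      · left; linarith
  have hU0 : Tendsto (fun n => |U n|) atTop (𝓝 0) := by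
    apply tendsto_zero_of_descent _ (fun n => abs_nonneg _) _ (divergent N)
    intro ε hε
    obtain ⟨n0, hn0⟩ := eventually_atTop.mp (he0.eventually_lt_const (half_pos hε))
    refine ⟨n0, ε / 4, by positivity, fun n hn => ?_⟩
    have h1 := hUstep n
    have h2 := hn0 n hn
    have h3 := hρ0 n
    have h3' := hρ1 n
    have h4 : 1 / ((N : ℝ) + n + 1) ≤ 2 * ((t (n + 1) - t n) / t n) := by
      have h5 := htsq (n + 1)
      push_cast at h5
      rw [add_assoc, ← h5]
      have hd := hdt n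
      rw [mul_div_assoc', div_le_div_iff₀ (mul_pos (htpos _) (htpos _)) (htpos n)]
      have hd0 : 0 ≤ t (n + 1) - t n := sub_nonneg.mpr (htmono n)
      nlinarith [htmono n, htpos n, htpos (n + 1), mul_nonneg hd0 (htpos n).le,
        mul_nonneg hd0 (htpos (n+1)).le]
    constructor
    · intro h
      rcases le_total (|e n|) (|U n|) with h6 | h6
      · nlinarith [mul_nonneg h3 (sub_nonneg.mpr h6)]
      · nlinarith [mul_nonneg (sub_nonneg.mpr h3') (sub_nonneg.mpr h6)]
    · intro h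
      right
      nlinarith [mul_nonneg h3 (sub_nonneg.mpr h), mul_le_mul_of_nonneg_left h4 hε.le]
  have he0' : Tendsto e atTop (𝓝 0) := (tendsto_zero_iff_abs_tendsto_zero _).mpr he0
  have hU0' : Tendsto U atTop (𝓝 0) := (tendsto_zero_iff_abs_tendsto_zero _).mpr hU0
  constructor
  · have : X = fun n => (e n - U n) * (1 / t n) := by
      funext n; rw [hXe]; ring
    show Tendsto X atTop (𝓝 0)
    rw [this]
    simpa using (he0'.sub hU0').mul hc0
  · have : Y = fun n => e n - 2 * U n := by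
      funext n
      show Y n = (2 * t n * X n - Y n) - 2 * (t n * X n - Y n)
      ring
    show Tendsto Y atTop (𝓝 0)
    rw [this]
    simpa using he0'.sub (hU0'.const_mul 2)

/-- Phase 1: greedy for the first coordinate. -/
noncomputable def st1 (a b : ℝ) : ℕ → ℝ × ℝ
  | 0 => (a, b)
  | n + 1 =>
    let s := st1 a b n
    (s.1 - sgn s.1 / ((n : ℝ) + 1), s.2 - sgn s.1 / Real.sqrt ((n : ℝ) + 1))

lemma phase1 (a b : ℝ) : ∃ N : ℕ, 12 ≤ N ∧
    |2 * Real.sqrt N * (st1 a b N).1 - (st1 a b N).2| ≤ Real.sqrt N / 8 ∧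
    |Real.sqrt N * (st1 a b N).1 - (st1 a b N).2| ≤ Real.sqrt N / 8 := by
  set X : ℕ → ℝ := fun n => (st1 a b n).1 with hX
  set Y : ℕ → ℝ := fun n => (st1 a b n).2 with hY
  set t : ℕ → ℝ := fun n => Real.sqrt n with ht
  set U : ℕ → ℝ := fun n => t n * X n - Y n with hUdef
  have htsq : ∀ n, t n * t n = (n : ℝ) := fun n => Real.mul_self_sqrt (Nat.cast_nonneg n)
  have htpos : ∀ n, 0 < t (n + 1) := fun n => Real.sqrt_pos.mpr (by positivity)
  have hXs : ∀ n, X (n + 1) = X n + 0 - sgn (X n) * (1 / ((n : ℝ) + 1)) := by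
    intro n
    simp only [hX, st1]
    ring
  have hYs : ∀ n, Y (n + 1) = Y n - sgn (X n) * (1 / t (n + 1)) := by
    intro n
    simp only [hX, hY, ht, st1]
    push_cast
    ring
  have hUs : ∀ n, U (n + 1) = U n + (t (n + 1) - t n) * X n := by
    intro n
    have h1 := (htpos n).ne'
    show t (n + 1) * X (n + 1) - Y (n + 1) = _
    rw [hXs, hYs]
    have h2 : (n : ℝ) + 1 = t (n + 1) * t (n + 1) := by
      rw [htsq]; push_cast; ring
    have : t (n + 1) * (sgn (X n) * (1 / ((n : ℝ) + 1))) = sgn (X n) * (1 / t (n + 1)) := by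
      rw [h2]
      field_simp
    calc t (n + 1) * (X n + 0 - sgn (X n) * (1 / ((n : ℝ) + 1))) -
        (Y n - sgn (X n) * (1 / t (n + 1)))
        = t (n + 1) * X n - (t (n + 1) * (sgn (X n) * (1 / ((n : ℝ) + 1)))) -
          (Y n - sgn (X n) * (1 / t (n + 1))) := by ring
      _ = t (n + 1) * X n - Y n := by rw [this]; ring
      _ = (t n * X n - Y n) + (t (n + 1) - t n) * X n := by ring
  have htmono : ∀ n, t n ≤ t (n + 1) := by
    intro n
    apply Real.sqrt_le_sqrt
    push_cast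
    linarith
  have hX0 : Tendsto (fun n => |X n|) atTop (𝓝 0) := by
    have hdiv := divergent 0
    apply tendsto_zero_of_descent _ (fun n => abs_nonneg _) _ hdiv
    intro ε hε
    have hlim : Tendsto (fun n : ℕ => 3 / 2 * (1 / ((n : ℝ) + 1))) atTop (𝓝 0) := by
      simpa using (tendsto_one_div_add_atTop_nhds_zero_nat (𝕜 := ℝ)).const_mul (3 / 2)
    obtain ⟨n0, hn0⟩ := eventually_atTop.mp (hlim.eventually_lt_const hε)
    refine ⟨n0, 1 / 2, by norm_num, fun n hn => ?_⟩
    have hcpos : (0 : ℝ) < 1 / ((n : ℝ) + 1) := by positivity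
    have h1 : |X (n + 1)| ≤ max (|X n| - (1 / ((n : ℝ) + 1)) / 2) (3 / 2 * (1 / ((n : ℝ) + 1))) := by
      rw [hXs]
      exact abs_sub_sgn (by rw [abs_zero]; positivity)
    have h2 := hn0 n hn
    constructor
    · intro h
      exact h1.trans_lt (max_lt (by linarith) h2)
    · intro h
      rcases le_max_iff.mp h1 with h5 | h5
      · right
        simp only [Nat.cast_zero, zero_add]
        linarith
      · left; linarith
  obtain ⟨K, hK⟩ := eventually_atTop.mp
    (hX0.eventually_lt_const (by norm_num : (0 : ℝ) < 1 / 32))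
  have hUb : ∀ n ≥ K, |U n| ≤ |U K| + (t n - t K) / 32 := by
    intro n hn
    induction n, hn using Nat.le_induction with
    | base => simp
    | succ n hn ih =>
      rw [hUs]
      have h1 := hK n hn
      have h2 : 0 ≤ t (n + 1) - t n := sub_nonneg.mpr (htmono n)
      calc |U n + (t (n + 1) - t n) * X n| ≤ |U n| + |(t (n + 1) - t n) * X n| := abs_add_le _ _
        _ = |U n| + (t (n + 1) - t n) * |X n| := by rw [abs_mul, abs_of_nonneg h2]
        _ ≤ _ := by nlinarith
  have httop : Tendsto t atTop atTop :=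
    Real.tendsto_sqrt_atTop.comp tendsto_natCast_atTop_atTop
  obtain ⟨N, hN1, hN2, hN3⟩ := ((httop.eventually_ge_atTop (32 * |U K|)).and
    ((eventually_ge_atTop K).and (eventually_ge_atTop 12))).exists
  refine ⟨N, hN3, ?_, ?_⟩
  · have h1 := hUb N hN2
    have h2 := hK N hN2
    have h3 : 0 ≤ t K := Real.sqrt_nonneg _
    have h4 : 0 ≤ t N := Real.sqrt_nonneg _
    have : 2 * t N * X N - Y N = U N + t N * X N := by
      show _ = t N * X N - Y N + t N * X N
      ring
    show |2 * t N * X N - Y N| ≤ t N / 8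
    rw [this]
    calc |U N + t N * X N| ≤ |U N| + |t N * X N| := abs_add_le _ _
      _ = |U N| + t N * |X N| := by rw [abs_mul, abs_of_nonneg h4]
      _ ≤ _ := by nlinarith
  · have h1 := hUb N hN2
    have h3 : 0 ≤ t K := Real.sqrt_nonneg _
    have h4 : 0 ≤ t N := Real.sqrt_nonneg _
    show |U N| ≤ t N / 8
    linarith

/-- Signed version: every point of the plane is `∑ ± (1/n, 1/√n)`. -/
lemma signed (a b : ℝ) : ∃ ζ : ℕ → ℝ, (∀ n, ζ n = 1 ∨ ζ n = -1) ∧
    Tendsto (fun m => ∑ n ∈ range m, ζ n / ((n : ℝ) + 1)) atTop (𝓝 a) ∧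
    Tendsto (fun m => ∑ n ∈ range m, ζ n / Real.sqrt ((n : ℝ) + 1)) atTop (𝓝 b) := by
  obtain ⟨N, hN, he, hu⟩ := phase1 a b
  obtain ⟨h1, h2⟩ := phase2 N hN _ _ he hu
  set x := (st1 a b N).1 with hx
  set y := (st1 a b N).2 with hy
  set ζ : ℕ → ℝ := fun n => if n < N then sgn (st1 a b n).1 else
    sgn (2 * Real.sqrt ((N : ℝ) + ((n - N : ℕ) : ℝ)) * (st2 N x y (n - N)).1 -
      (st2 N x y (n - N)).2) with hζ
  have hA : ∀ n ≤ N, (st1 a b n).1 = a - ∑ k ∈ range n, ζ k / ((k : ℝ) + 1) ∧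
      (st1 a b n).2 = b - ∑ k ∈ range n, ζ k / Real.sqrt ((k : ℝ) + 1) := by
    intro n hn
    induction n with
    | zero => simp [st1]
    | succ n ih =>
      obtain ⟨i1, i2⟩ := ih (by omega)
      have hz : ζ n = sgn (st1 a b n).1 := by
        simp only [hζ]; rw [if_pos (by omega)]
      rw [sum_range_succ, sum_range_succ, hz]
      simp only [st1]
      constructor
      · rw [← sub_sub, ← i1]
      · rw [← sub_sub, ← i2]
  have hB : ∀ n, (st2 N x y n).1 = a - ∑ k ∈ range (N + n), ζ k / ((k : ℝ) + 1) ∧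
      (st2 N x y n).2 = b - ∑ k ∈ range (N + n), ζ k / Real.sqrt ((k : ℝ) + 1) := by
    intro n
    induction n with
    | zero =>
      obtain ⟨i1, i2⟩ := hA N le_rfl
      simp only [st2, Nat.add_zero]
      exact ⟨i1, i2⟩
    | succ n ih =>
      obtain ⟨i1, i2⟩ := ih
      have hz : ζ (N + n) = sgn (2 * Real.sqrt ((N : ℝ) + n) * (st2 N x y n).1 -
          (st2 N x y n).2) := by
        simp only [hζ]
        rw [if_neg (by omega), Nat.add_sub_cancel_left]
      rw [← Nat.add_assoc, sum_range_succ, sum_range_succ, hz]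
      simp only [st2]
      constructor
      · rw [← sub_sub, ← i1]
        push_cast
        rfl
      · rw [← sub_sub, ← i2]
        push_cast
        rfl
  refine ⟨ζ, fun n => ?_, ?_, ?_⟩
  · simp only [hζ]
    split_ifs <;> exact sgn_cases _
  · rw [← tendsto_add_atTop_iff_nat N]
    have h3 : Tendsto (fun n => a - (st2 N x y n).1) atTop (𝓝 (a - 0)) :=
      tendsto_const_nhds.sub h1
    rw [sub_zero] at h3
    refine h3.congr (fun n => ?_)
    rw [(hB n).1, sub_sub_cancel, add_comm N n]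
  · rw [← tendsto_add_atTop_iff_nat N]
    have h3 : Tendsto (fun n => b - (st2 N x y n).2) atTop (𝓝 (b - 0)) :=
      tendsto_const_nhds.sub h2
    rw [sub_zero] at h3
    refine h3.congr (fun n => ?_)
    rw [(hB n).2, sub_sub_cancel, add_comm N n]

lemma alternating (f : ℕ → ℝ) (hf : Antitone f) (h0 : Tendsto f atTop (𝓝 0)) :
    ∃ S, Tendsto (fun m => ∑ n ∈ range m, (-1) ^ (n + 1) * f n) atTop (𝓝 S) := by
  obtain ⟨l, hl⟩ := hf.tendsto_alternating_series_of_tendsto_zero h0
  refine ⟨-l, hl.neg.congr (fun m => ?_)⟩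
  rw [← sum_neg_distrib]
  refine sum_congr rfl fun n _ => ?_
  rw [pow_succ]
  ring

/-- Every point of the plane is in the achievement set of `∑ (-1)^n (1/n, 1/√n)`. -/
theorem result : achievementSet v = Set.univ := by
  rw [Set.eq_univ_iff_forall]
  rintro ⟨a, b⟩
  obtain ⟨S, hS⟩ := alternating (fun n : ℕ => 1 / ((n : ℝ) + 1))
    (fun m n h => one_div_le_one_div_of_le (by positivity) (by
      have : (m : ℝ) ≤ n := by exact_mod_cast h
      linarith)) tendsto_one_div_add_atTop_nhds_zero_nat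
  have hsq : Tendsto (fun n : ℕ => 1 / Real.sqrt ((n : ℝ) + 1)) atTop (𝓝 0) := by
    have h1 : Tendsto (fun n : ℕ => (n : ℝ) + 1) atTop atTop :=
      tendsto_atTop_add_const_right _ _ tendsto_natCast_atTop_atTop
    exact (tendsto_inv_atTop_zero.comp (Real.tendsto_sqrt_atTop.comp h1)).congr
      (fun n => by simp [one_div])
  obtain ⟨T, hT⟩ := alternating (fun n : ℕ => 1 / Real.sqrt ((n : ℝ) + 1))
    (fun m n h => one_div_le_one_div_of_le (Real.sqrt_pos.mpr (by positivity))
      (Real.sqrt_le_sqrt (by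
        have : (m : ℝ) ≤ n := by exact_mod_cast h
        linarith))) hsq
  obtain ⟨ζ, hζ, h1, h2⟩ := signed (2 * a - S) (2 * b - T)
  -- `ε_n = (1 + (-1)^n ζ_{n-1}) / 2`
  refine ⟨fun n => (1 + (-1) ^ n * ζ (n - 1)) / 2, fun n => ?_, ?_⟩
  · rcases neg_one_pow_eq_or ℝ n with h | h <;> rcases hζ (n - 1) with h' | h' <;>
      simp only [h, h'] <;> norm_num
  · have hsum : ∀ m : ℕ, ∑ n ∈ Finset.Icc 1 m, ((1 + (-1) ^ n * ζ (n - 1)) / 2 : ℝ) • v n
        = ((∑ n ∈ range m, (-1) ^ (n + 1) * (1 / ((n : ℝ) + 1)) +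
            ∑ n ∈ range m, ζ n / ((n : ℝ) + 1)) / 2,
          (∑ n ∈ range m, (-1) ^ (n + 1) * (1 / Real.sqrt ((n : ℝ) + 1)) +
            ∑ n ∈ range m, ζ n / Real.sqrt ((n : ℝ) + 1)) / 2) := by
      intro m
      induction m with
      | zero => simp; rfl
      | succ m ih =>
        rw [Finset.sum_Icc_succ_top (by omega), ih]
        simp only [sum_range_succ, v]
        have hp : ((-1 : ℝ) ^ (m + 1)) * (-1) ^ (m + 1) = 1 := by
          rw [← mul_pow]; norm_num
        ext
        · simp only [Prod.fst_add, Prod.smul_fst, smul_eq_mul, Nat.add_sub_cancel]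
          push_cast
          have : (1 + (-1) ^ (m + 1) * ζ m) / 2 * ((-1) ^ (m + 1) / ((m : ℝ) + 1)) =
              ((-1) ^ (m + 1) * (1 / ((m : ℝ) + 1)) +
                (((-1 : ℝ) ^ (m + 1)) * (-1) ^ (m + 1)) * (ζ m / ((m : ℝ) + 1))) / 2 := by ring
          rw [this, hp]
          ring
        · simp only [Prod.snd_add, Prod.smul_snd, smul_eq_mul, Nat.add_sub_cancel]
          push_cast
          have : (1 + (-1) ^ (m + 1) * ζ m) / 2 * ((-1) ^ (m + 1) / Real.sqrt ((m : ℝ) + 1)) =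
              ((-1) ^ (m + 1) * (1 / Real.sqrt ((m : ℝ) + 1)) +
                (((-1 : ℝ) ^ (m + 1)) * (-1) ^ (m + 1)) * (ζ m / Real.sqrt ((m : ℝ) + 1))) / 2 := by
            ring
          rw [this, hp]
          ring
    have hlim := ((hS.add h1).div_const 2).prodMk_nhds ((hT.add h2).div_const 2)
    have ha : (S + (2 * a - S)) / 2 = a := by ring
    have hb : (T + (2 * b - T)) / 2 = b := by ring
    rw [ha, hb] at hlim
    exact hlim.congr (fun m => (hsum m).symm)

end Pool.Agent.Results.MP_51e3e3_an.FullPlane
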